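import Pool.Agent.Helper57.AN.Main2

/-!
# The distance between the automorphic norm and the maximal norm is `1/2`

Let `V` be a non-trivial irreducible Harish-Chandra module of `G = SL(2,ℝ)`, `Γ ⊂ G` a cocompact
lattice, and `η` a non-zero continuous `Γ`-invariant functional on a globalization of `V` (for
instance on the smooth Frechet globalization `V^∞`). Then `p_aut(v) = sup_g |η(g v)|` is in
`Norm(V)`, the maximal class `[p_max]` exists, and `d([p_aut], [p_max]) = 1/2`.

Lower bound: for random signs `v = ∑_{N < n ≤ 2N} ± e_n` one has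
`p_aut(v_s) ≤ N^{s + 1/2 + o(1)}` by the bound `∑_{|n| ≤ N} |η(g e_n)|² ≤ C N`, while the matrix
coefficient `⟨e_m, g v⟩` is at most `N^{o(1)}` for all `g`, so `p_max(v) ≥ N^{1 - o(1)}`.
-/

universe u v

open AutNorm

theorem Pool.Agent.Results.MP_bb0caf_al.AutMaxDistance.result
    {V : Type u} [AddCommGroup V] [Module ℂ V] (M : LieMod V)
    (hHC : M.IsHarishChandra) (hirr : M.IsIrreducible)
    (hnt : ∃ (X : Lie2) (v : V), M.act X v ≠ 0)
    (Γ : Subgroup G) [DiscreteTopology Γ] [CompactSpace (Quotient (QuotientGroup.rightRel Γ))]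
    {E : Type v} [AddCommGroup E] [Module ℂ E] [TopologicalSpace E]
    (π : G →* (E →L[ℂ] E)) (j : V →ₗ[ℂ] E) (hg : M.IsGlobalization π j)
    (η : E →L[ℂ] ℂ) (hη : η ≠ 0) (hinv : ∀ γ ∈ Γ, ∀ x, η (π γ x) = η x) :
    M.MemNorm (pAut π j η) ∧ (∃ p, M.IsMaxNorm p) ∧
      ∀ p, M.IsMaxNorm p → M.dNorm (pAut π j η) p = 1 / 2 :=
  main_theorem M hHC hirr hnt Γ π j hg η hη hinv
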